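import Mathlib

set_option autoImplicit false

namespace Pool.Agent.P.MP_c72435_an

open Complex Metric Set Filter Topology

/-- Taylor coefficient at the origin. -/
noncomputable def tc (f : ℂ → ℂ) (n : ℕ) : ℂ := iteratedDeriv n f 0 / ((Nat.factorial n : ℕ) : ℂ)

lemma tc_congr {f g : ℂ → ℂ} (h : f =ᶠ[𝓝 0] g) (n : ℕ) : tc f n = tc g n := by
  unfold tc; rw [h.iteratedDeriv_eq n]

lemma tc_zero (f : ℂ → ℂ) : tc f 0 = f 0 := by simp [tc]

lemma tc_one (f : ℂ → ℂ) : tc f 1 = deriv f 0 := by simp [tc]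

lemma tc_const_mul (c : ℂ) (f : ℂ → ℂ) (n : ℕ) : tc (fun z => c * f z) n = c * tc f n := by
  unfold tc; rw [iteratedDeriv_const_mul_field]; ring

lemma tc_add {f g : ℂ → ℂ} (hf : AnalyticAt ℂ f 0) (hg : AnalyticAt ℂ g 0) (n : ℕ) :
    tc (fun z => f z + g z) n = tc f n + tc g n := by
  unfold tc; rw [iteratedDeriv_fun_add hf.contDiffAt hg.contDiffAt]; ring

lemma tc_mul {f g : ℂ → ℂ} (hf : AnalyticAt ℂ f 0) (hg : AnalyticAt ℂ g 0) (n : ℕ) :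
    tc (fun z => f z * g z) n = ∑ i ∈ Finset.range (n + 1), tc f i * tc g (n - i) := by
  unfold tc
  rw [iteratedDeriv_fun_mul hf.contDiffAt hg.contDiffAt, Finset.sum_div]
  refine Finset.sum_congr rfl fun i hi => ?_
  have hi' : i ≤ n := Nat.lt_succ_iff.mp (Finset.mem_range.mp hi)
  have h1 : ((n.choose i : ℕ) : ℂ) * (i.factorial : ℂ) * ((n - i).factorial : ℂ) = (n.factorial : ℂ) := by
    exact_mod_cast Nat.choose_mul_factorial_mul_factorial hi'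
  have h2 : (i.factorial : ℂ) ≠ 0 := by exact_mod_cast i.factorial_ne_zero
  have h3 : ((n - i).factorial : ℂ) ≠ 0 := by exact_mod_cast (n - i).factorial_ne_zero
  have h4 : ((n.choose i : ℕ) : ℂ) ≠ 0 := by exact_mod_cast (Nat.choose_pos hi').ne'
  rw [← h1]; field_simp

lemma tc_id (n : ℕ) : tc (fun z => z) n = if n = 1 then 1 else 0 := by
  unfold tc; rw [iteratedDeriv_fun_id_zero]
  split_ifs with h
  · subst h; simp
  · simp

/-- The rotated Koebe function. -/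
noncomputable def koe (κ z : ℂ) : ℂ := z / (1 - κ * z) ^ 2

def K2 (κ a1 a2 : ℂ) : ℂ := a2 + 2 * κ * a1 ^ 2
def K3 (κ a1 a2 a3 : ℂ) : ℂ := a3 + 4 * κ * a1 * a2 + 3 * κ ^ 2 * a1 ^ 3
def K4 (κ a1 a2 a3 a4 : ℂ) : ℂ :=
  a4 + 2 * κ * (2 * a1 * a3 + a2 ^ 2) + 9 * κ ^ 2 * a1 ^ 2 * a2 + 4 * κ ^ 3 * a1 ^ 4
def K5 (κ a1 a2 a3 a4 a5 : ℂ) : ℂ :=
  a5 + 4 * κ * (a1 * a4 + a2 * a3) + 9 * κ ^ 2 * (a1 ^ 2 * a3 + a1 * a2 ^ 2)
    + 16 * κ ^ 3 * a1 ^ 3 * a2 + 5 * κ ^ 4 * a1 ^ 5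

lemma koe_coeff (κ : ℂ) {g : ℂ → ℂ} (hg : AnalyticAt ℂ g 0) (h0 : g 0 = 0) :
    tc (fun z => koe κ (g z)) 1 = tc g 1 ∧
    tc (fun z => koe κ (g z)) 2 = K2 κ (tc g 1) (tc g 2) ∧
    tc (fun z => koe κ (g z)) 3 = K3 κ (tc g 1) (tc g 2) (tc g 3) ∧
    tc (fun z => koe κ (g z)) 4 = K4 κ (tc g 1) (tc g 2) (tc g 3) (tc g 4) ∧
    tc (fun z => koe κ (g z)) 5 = K5 κ (tc g 1) (tc g 2) (tc g 3) (tc g 4) (tc g 5) := by
  set h : ℂ → ℂ := fun z => koe κ (g z) with hh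
  have hne0 : (1 - κ * g 0) ^ 2 ≠ 0 := by simp [h0]
  have hd : AnalyticAt ℂ (fun z => (1 - κ * g z) ^ 2) 0 := by fun_prop
  have ha : AnalyticAt ℂ h 0 := hg.div hd hne0
  have hev : ∀ᶠ z in 𝓝 (0 : ℂ), (1 - κ * g z) ^ 2 ≠ 0 := hd.continuousAt.eventually_ne hne0
  have hgh : AnalyticAt ℂ (fun z => g z * h z) 0 := hg.mul ha
  have hggh : AnalyticAt ℂ (fun z => g z * (g z * h z)) 0 := hg.mul hgh
  have key : h =ᶠ[𝓝 0] fun z => g z + ((2 * κ) * (g z * h z) + (-κ ^ 2) * (g z * (g z * h z))) := by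
    filter_upwards [hev] with z hz
    have : h z * (1 - κ * g z) ^ 2 = g z := by
      simp only [hh, koe]; exact div_mul_cancel₀ _ hz
    linear_combination this
  have hrec : ∀ n, tc h n = tc g n + ((2 * κ) * (∑ i ∈ Finset.range (n + 1), tc g i * tc h (n - i))
      + (-κ ^ 2) * ∑ i ∈ Finset.range (n + 1), tc g i *
        ∑ j ∈ Finset.range (n - i + 1), tc g j * tc h (n - i - j)) := by
    intro n
    rw [tc_congr key n, tc_add hg (by fun_prop), tc_add (by fun_prop) (by fun_prop),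
      tc_const_mul, tc_const_mul, tc_mul hg ha, tc_mul hg hgh]
    simp only [tc_mul hg ha]
  have g0 : tc g 0 = 0 := by rw [tc_zero, h0]
  have e0 : tc h 0 = 0 := by rw [tc_zero]; simp [hh, koe, h0]
  have e1 := hrec 1
  have e2 := hrec 2
  have e3 := hrec 3
  have e4 := hrec 4
  have e5 := hrec 5
  simp only [Finset.sum_range_succ, Finset.sum_range_zero, Nat.reduceSub, g0, e0, zero_mul,
    mul_zero, add_zero, zero_add, Nat.reduceAdd] at e1 e2 e3 e4 e5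
  have f1 : tc h 1 = tc g 1 := by rw [e1]
  have f2 : tc h 2 = K2 κ (tc g 1) (tc g 2) := by rw [e2, f1, K2]; ring
  have f3 : tc h 3 = K3 κ (tc g 1) (tc g 2) (tc g 3) := by rw [e3, f2, f1, K2, K3]; ring
  have f4 : tc h 4 = K4 κ (tc g 1) (tc g 2) (tc g 3) (tc g 4) := by
    rw [e4, f3, f2, f1, K2, K3, K4]; ring
  have f5 : tc h 5 = K5 κ (tc g 1) (tc g 2) (tc g 3) (tc g 4) (tc g 5) := by
    rw [e5, f4, f3, f2, f1, K2, K3, K4, K5]; ring
  exact ⟨f1, f2, f3, f4, f5⟩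

lemma one_sub_ne {κ z : ℂ} (hκ : ‖κ‖ = 1) (hz : z ∈ ball (0 : ℂ) 1) : 1 - κ * z ≠ 0 := by
  intro h
  have h1 : κ * z = 1 := by linear_combination -h
  have h2 : ‖κ * z‖ < 1 := by
    rw [norm_mul, hκ, one_mul]; simpa using hz
  rw [h1] at h2; simp at h2

lemma koe_inj {κ : ℂ} (hκ : ‖κ‖ = 1) : InjOn (koe κ) (ball (0 : ℂ) 1) := by
  intro z hz w hw h
  have h1 := one_sub_ne hκ hz
  have h2 := one_sub_ne hκ hw
  unfold koe at h
  rw [div_eq_div_iff (pow_ne_zero 2 h1) (pow_ne_zero 2 h2)] at h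
  have h3 : (z - w) * (1 - κ ^ 2 * z * w) = 0 := by linear_combination h
  rcases mul_eq_zero.mp h3 with h4 | h4
  · linear_combination h4
  · exfalso
    have h5 : κ ^ 2 * z * w = 1 := by linear_combination -h4
    have hz' : ‖z‖ < 1 := by simpa using hz
    have hw' : ‖w‖ < 1 := by simpa using hw
    have h6 : ‖κ ^ 2 * z * w‖ < 1 := by
      rw [norm_mul, norm_mul, norm_pow, hκ, one_pow, one_mul]
      exact mul_lt_one_of_nonneg_of_lt_one_left (norm_nonneg _) hz' hw'.le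
    rw [h5] at h6; simp at h6

lemma koe_diff {κ : ℂ} (hκ : ‖κ‖ = 1) : DifferentiableOn ℂ (koe κ) (ball (0 : ℂ) 1) := by
  unfold koe
  refine DifferentiableOn.div (by fun_prop) (by fun_prop) fun z hz => ?_
  exact pow_ne_zero 2 (one_sub_ne hκ hz)

lemma cay_re_pos {z : ℂ} (hz : ‖z‖ < 1) : 0 < ((1 + z) / (1 - z)).re := by
  have h1 : 1 - z ≠ 0 := by
    intro h
    have : z = 1 := by linear_combination -h
    rw [this] at hz; simp at hz
  have h2 : 0 < normSq (1 - z) := normSq_pos.mpr h1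
  have h3 : normSq z < 1 := by
    rw [normSq_eq_norm_sq]; nlinarith [norm_nonneg z]
  rw [div_re, ← add_div]
  apply div_pos _ h2
  rw [normSq_apply] at h3
  simp only [add_re, one_re, sub_re, add_im, one_im, sub_im]
  nlinarith

lemma slit_of_re_pos {c : ℂ} (hc : 0 < c.re) {r : ℝ} (hr : 0 < r) (hr1 : r ≤ 1) :
    (1 - (r : ℂ)) + r * c ^ 2 ∈ slitPlane := by
  rw [mem_slitPlane_iff]
  by_cases h : c.im = 0
  · left
    simp only [add_re, sub_re, one_re, ofReal_re, mul_re, ofReal_im, zero_mul, sub_zero, sq, h,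
      mul_zero]
    have : 0 < r * (c.re * c.re) := by positivity
    linarith
  · right
    simp only [add_im, sub_im, one_im, ofReal_im, mul_im, ofReal_re, zero_mul, sub_zero, sq,
      add_zero, zero_add]
    have : c.re * c.im + c.im * c.re = 2 * c.re * c.im := by ring
    rw [this]
    positivity

lemma half_re_pos {a : ℂ} (ha : a ∈ slitPlane) : 0 < (a ^ (2⁻¹ : ℂ)).re := by
  rw [cpow_inv_two_re]
  apply Real.sqrt_pos.mpr
  rw [mem_slitPlane_iff] at ha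
  have h1 : |a.re| ≤ ‖a‖ := abs_re_le_norm a
  rcases ha with h | h
  · have := norm_nonneg a
    linarith
  · have h2 : |a.re| < ‖a‖ := by
      rw [← abs_norm, ← sq_lt_sq, ← normSq_eq_norm_sq, normSq_apply]
      have : 0 < a.im * a.im := mul_self_pos.mpr h
      nlinarith
    have := neg_abs_le a.re
    linarith

/-- The Pick slit map. -/
lemma exists_pick {r : ℝ} (hr : 0 < r) (hr1 : r ≤ 1) :
    ∃ P : ℂ → ℂ, DifferentiableOn ℂ P (ball (0 : ℂ) 1) ∧ MapsTo P (ball (0 : ℂ) 1) (ball (0 : ℂ) 1) ∧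
      ∀ z ∈ ball (0 : ℂ) 1, koe 1 (P z) = r * koe 1 z := by
  set A : ℂ → ℂ := fun z => (1 - (r : ℂ)) + r * ((1 + z) / (1 - z)) ^ 2 with hA
  set s : ℂ → ℂ := fun z => (A z) ^ (2⁻¹ : ℂ) with hs
  have hne : ∀ z ∈ ball (0 : ℂ) 1, 1 - z ≠ 0 := fun z hz => by
    simpa using one_sub_ne (κ := 1) (by simp) hz
  have hAs : ∀ z ∈ ball (0 : ℂ) 1, A z ∈ slitPlane := fun z hz =>
    slit_of_re_pos (cay_re_pos (by simpa using hz)) hr hr1
  have hsre : ∀ z ∈ ball (0 : ℂ) 1, 0 < (s z).re := fun z hz => half_re_pos (hAs z hz)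
  have hs1 : ∀ z ∈ ball (0 : ℂ) 1, s z + 1 ≠ 0 := fun z hz h => by
    have h1 := hsre z hz
    have h2 : (s z + 1).re = 0 := by rw [h]; simp
    simp only [add_re, one_re] at h2
    linarith
  have hssq : ∀ z, s z ^ 2 = A z := fun z => by
    simp only [hs]
    exact_mod_cast cpow_ofNat_inv_pow (A z) 2
  have hAd : DifferentiableOn ℂ A (ball (0 : ℂ) 1) := by
    simp only [hA]
    refine DifferentiableOn.add (by fun_prop) (DifferentiableOn.mul (by fun_prop) ?_)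
    exact (DifferentiableOn.div (by fun_prop) (by fun_prop) hne).pow 2
  have hsd : DifferentiableOn ℂ s (ball (0 : ℂ) 1) := hAd.cpow_const hAs
  refine ⟨fun z => (s z - 1) / (s z + 1), ?_, ?_, ?_⟩
  · exact DifferentiableOn.div (by fun_prop) (by fun_prop) hs1
  · intro z hz
    rw [mem_ball_zero_iff, norm_div, div_lt_one (norm_pos_iff.mpr (hs1 z hz))]
    rw [← abs_norm, ← abs_norm (s z + 1), ← sq_lt_sq, ← normSq_eq_norm_sq, ← normSq_eq_norm_sq,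
      normSq_apply, normSq_apply]
    have := hsre z hz
    simp only [add_re, one_re, sub_re, add_im, one_im, sub_im]
    nlinarith
  · intro z hz
    have h1 := hs1 z hz
    have h2 := hne z hz
    have h3 := hssq z
    simp only [hA] at h3
    unfold koe
    have h4 : 1 - 1 * ((s z - 1) / (s z + 1)) = 2 / (s z + 1) := by field_simp; ring
    rw [h4]
    field_simp at h3 ⊢
    linear_combination h3

lemma exists_pick_rot {κ : ℂ} (hκ : ‖κ‖ = 1) {r : ℝ} (hr : 0 < r) (hr1 : r ≤ 1) :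
    ∃ P : ℂ → ℂ, DifferentiableOn ℂ P (ball (0 : ℂ) 1) ∧ MapsTo P (ball (0 : ℂ) 1) (ball (0 : ℂ) 1) ∧
      ∀ z ∈ ball (0 : ℂ) 1, koe κ (P z) = r * koe κ z := by
  obtain ⟨P, hd, hm, he⟩ := exists_pick hr hr1
  have hκ0 : κ ≠ 0 := by intro h; rw [h] at hκ; simp at hκ
  have hrot : MapsTo (fun z => κ * z) (ball (0 : ℂ) 1) (ball (0 : ℂ) 1) := fun z hz => by
    rw [mem_ball_zero_iff, norm_mul, hκ, one_mul]; simpa using hz
  refine ⟨fun z => κ⁻¹ * P (κ * z), ?_, ?_, ?_⟩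
  · exact (hd.comp (by fun_prop) hrot).const_mul _
  · intro z hz
    rw [mem_ball_zero_iff, norm_mul, norm_inv, hκ, inv_one, one_mul]
    simpa using hm (hrot hz)
  · intro z hz
    have h := he (κ * z) (hrot hz)
    unfold koe at h ⊢
    have h1 : κ * (κ⁻¹ * P (κ * z)) = 1 * P (κ * z) := by field_simp
    rw [h1, mul_div_assoc, h, one_mul]
    field_simp

/-- A univalent self-map of the disc fixing the origin, with its first five coefficients. -/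
def Good (g : ℂ → ℂ) (a1 a2 a3 a4 a5 : ℂ) : Prop :=
  DifferentiableOn ℂ g (ball (0 : ℂ) 1) ∧ MapsTo g (ball (0 : ℂ) 1) (ball (0 : ℂ) 1) ∧
    InjOn g (ball (0 : ℂ) 1) ∧ g 0 = 0 ∧
    tc g 1 = a1 ∧ tc g 2 = a2 ∧ tc g 3 = a3 ∧ tc g 4 = a4 ∧ tc g 5 = a5

lemma good_id : Good (fun z => z) 1 0 0 0 0 := by
  refine ⟨by fun_prop, fun z hz => hz, fun z _ w _ h => h, rfl, ?_, ?_, ?_, ?_, ?_⟩ <;>
    simp [tc_id]

lemma an_of_diff {g : ℂ → ℂ} (hg : DifferentiableOn ℂ g (ball (0 : ℂ) 1)) : AnalyticAt ℂ g 0 :=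
  hg.analyticAt (ball_mem_nhds 0 one_pos)

lemma step {κ : ℂ} (hκ : ‖κ‖ = 1) {r : ℝ} (hr : 0 < r) (hr1 : r ≤ 1)
    {a1 a2 a3 a4 a5 b1 b2 b3 b4 b5 : ℂ} (hg : ∃ g, Good g a1 a2 a3 a4 a5)
    (h1 : b1 = r * a1) (h2 : K2 κ b1 b2 = r * K2 κ a1 a2)
    (h3 : K3 κ b1 b2 b3 = r * K3 κ a1 a2 a3) (h4 : K4 κ b1 b2 b3 b4 = r * K4 κ a1 a2 a3 a4)
    (h5 : K5 κ b1 b2 b3 b4 b5 = r * K5 κ a1 a2 a3 a4 a5) :
    ∃ w, Good w b1 b2 b3 b4 b5 := by
  obtain ⟨g, gd, gm, gi, g0, g1, g2, g3, g4, g5⟩ := hg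
  obtain ⟨P, hd, hm, he⟩ := exists_pick_rot hκ hr hr1
  have hr0 : (r : ℂ) ≠ 0 := by exact_mod_cast hr.ne'
  have hb0 : (0 : ℂ) ∈ ball (0 : ℂ) 1 := mem_ball_self one_pos
  have wd : DifferentiableOn ℂ (fun z => P (g z)) (ball (0 : ℂ) 1) := hd.comp gd gm
  have w0 : P (g 0) = 0 := by
    apply koe_inj hκ (hm (gm hb0)) hb0
    rw [he _ (gm hb0), g0]; simp [koe]
  have hev : (fun z => koe κ (P (g z))) =ᶠ[𝓝 0] fun z => r * koe κ (g z) := by
    filter_upwards [ball_mem_nhds (0 : ℂ) one_pos] with z hz using he _ (gm hz)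
  obtain ⟨p1, p2, p3, p4, p5⟩ := koe_coeff κ (an_of_diff wd) w0
  obtain ⟨q1, q2, q3, q4, q5⟩ := koe_coeff κ (an_of_diff gd) g0
  rw [tc_congr hev, tc_const_mul] at p1 p2 p3 p4 p5
  rw [q1, g1, ← h1] at p1
  rw [q2, g1, g2, ← h2, ← p1] at p2
  have p2' : tc (fun z => P (g z)) 2 = b2 := by unfold K2 at p2; linear_combination -p2
  rw [q3, g1, g2, g3, ← h3, ← p1, p2'] at p3
  have p3' : tc (fun z => P (g z)) 3 = b3 := by unfold K3 at p3; linear_combination -p3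
  rw [q4, g1, g2, g3, g4, ← h4, ← p1, p2', p3'] at p4
  have p4' : tc (fun z => P (g z)) 4 = b4 := by unfold K4 at p4; linear_combination -p4
  rw [q5, g1, g2, g3, g4, g5, ← h5, ← p1, p2', p3', p4'] at p5
  have p5' : tc (fun z => P (g z)) 5 = b5 := by unfold K5 at p5; linear_combination -p5
  refine ⟨fun z => P (g z), wd, fun z hz => hm (gm hz), ?_, w0, p1.symm, p2', p3', p4', p5'⟩
  intro z hz w hw h
  apply gi hz hw
  apply koe_inj hκ (gm hz) (gm hw)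
  have h' : (r : ℂ) * koe κ (g z) = r * koe κ (g w) := by
    rw [← he _ (gm hz), ← he _ (gm hw)]
    exact congrArg (koe κ) h
  exact mul_left_cancel₀ hr0 h'

lemma final {κ : ℂ} (hκ : ‖κ‖ = 1) {a1 a2 a3 a4 a5 : ℂ} (hg : ∃ g, Good g a1 a2 a3 a4 a5)
    (ha : a1 ≠ 0) :
    ∃ f : ℂ → ℂ, DifferentiableOn ℂ f (ball (0 : ℂ) 1) ∧ InjOn f (ball (0 : ℂ) 1) ∧ f 0 = 0 ∧
      deriv f 0 = 1 ∧ tc f 3 = a1⁻¹ * K3 κ a1 a2 a3 ∧ tc f 5 = a1⁻¹ * K5 κ a1 a2 a3 a4 a5 := by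
  obtain ⟨g, gd, gm, gi, g0, g1, g2, g3, g4, g5⟩ := hg
  obtain ⟨q1, q2, q3, q4, q5⟩ := koe_coeff κ (an_of_diff gd) g0
  refine ⟨fun z => a1⁻¹ * koe κ (g z), ((koe_diff hκ).comp gd gm).const_mul _, ?_, ?_, ?_, ?_, ?_⟩
  · intro z hz w hw h
    apply gi hz hw
    apply koe_inj hκ (gm hz) (gm hw)
    exact mul_left_cancel₀ (inv_ne_zero ha) h
  · simp [g0, koe]
  · rw [← tc_one, tc_const_mul, q1, g1, inv_mul_cancel₀ ha]
  · rw [tc_const_mul, q3, g1, g2, g3]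
  · rw [tc_const_mul, q5, g1, g2, g3, g4, g5]

end Pool.Agent.P.MP_c72435_an
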