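import Pool.Agent.P.MP_c72435_an.Basic

/-!
A one-parameter family of univalent functions near the Koebe function and its expansion.
-/

set_option autoImplicit false

namespace Pool.Agent.P.MP_c72435_an.Odd

open Complex Metric Set Filter Topology

/-- the Cayley map onto the right half-plane -/
noncomputable def et (z : ℂ) : ℂ := (1 + z) / (1 - z)

noncomputable def ze (t : ℝ) (z : ℂ) : ℂ := et z + I * ((t : ℂ) ^ 6 / 2 - (t : ℂ) ^ 2)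

noncomputable def w1 (t : ℝ) (z : ℂ) : ℂ := ((t : ℂ) ^ 4 + ze t z ^ 2) ^ (2⁻¹ : ℂ)

noncomputable def vv (t : ℝ) (z : ℂ) : ℂ := (I * (t : ℂ) ^ 2 + w1 t z) ^ 2

noncomputable def w2 (t : ℝ) (z : ℂ) : ℂ := (1 + (t : ℂ) ^ 7 * vv t z) ^ (2⁻¹ : ℂ)

noncomputable def hh (t : ℝ) (z : ℂ) : ℂ := (I + w2 t z) ^ 2

lemma slit2 {c : ℂ} (hc : 0 < c.re) {a r : ℝ} (ha : 0 ≤ a) (hr : 0 < r) :
    (a : ℂ) + r * c ^ 2 ∈ slitPlane := by
  rw [mem_slitPlane_iff]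
  by_cases h : c.im = 0
  · left
    simp only [add_re, ofReal_re, mul_re, ofReal_im, zero_mul, sub_zero, sq, h, mul_zero]
    positivity
  · right
    simp only [add_im, ofReal_im, mul_im, ofReal_re, zero_mul, sq, add_zero, zero_add]
    have : c.re * c.im + c.im * c.re = 2 * c.re * c.im := by ring
    rw [this]
    positivity

lemma sq_inj {a b : ℂ} (ha : 0 < a.re) (hb : 0 < b.re) (h : a ^ 2 = b ^ 2) : a = b := by
  rcases sq_eq_sq_iff_eq_or_eq_neg.1 h with e | e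
  · exact e
  · rw [e, neg_re] at ha; linarith

lemma half_sq (a : ℂ) : (a ^ (2⁻¹ : ℂ)) ^ 2 = a := by exact_mod_cast cpow_ofNat_inv_pow a 2

lemma one_sub_ne' {z : ℂ} (hz : z ∈ ball (0 : ℂ) 1) : 1 - z ≠ 0 := by
  simpa using one_sub_ne (κ := 1) (by simp) hz

lemma neg_mem {z : ℂ} (hz : z ∈ ball (0 : ℂ) 1) : -z ∈ ball (0 : ℂ) 1 := by simpa using hz

lemma et_diff : DifferentiableOn ℂ et (ball 0 1) :=
  DifferentiableOn.div (by fun_prop) (by fun_prop) fun _ hz => one_sub_ne' hz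

lemma th_diff : DifferentiableOn ℂ (fun z => et (-z)) (ball 0 1) :=
  et_diff.comp (by fun_prop) fun _ hz => neg_mem hz

lemma et_mul {z : ℂ} (hz : z ∈ ball (0 : ℂ) 1) : et z * et (-z) = 1 := by
  have h1 := one_sub_ne' hz
  have h2 := one_sub_ne' (neg_mem hz)
  unfold et
  field_simp
  ring

variable {t : ℝ} {z : ℂ}

lemma ze_re (hz : z ∈ ball (0 : ℂ) 1) : 0 < (ze t z).re := by
  have h : (t : ℂ) ^ 6 / 2 - (t : ℂ) ^ 2 = ((t ^ 6 / 2 - t ^ 2 : ℝ) : ℂ) := by push_cast; ring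
  rw [ze, h, add_re, I_mul_re, ofReal_im, neg_zero, add_zero]
  exact cay_re_pos (by simpa using hz)

lemma s1 (hz : z ∈ ball (0 : ℂ) 1) : (t : ℂ) ^ 4 + ze t z ^ 2 ∈ slitPlane := by
  have := slit2 (ze_re (t := t) hz) (a := t ^ 4) (by positivity) one_pos
  rwa [ofReal_pow, ofReal_one, one_mul] at this

lemma u_re (hz : z ∈ ball (0 : ℂ) 1) : 0 < (I * (t : ℂ) ^ 2 + w1 t z).re := by
  rw [← ofReal_pow, add_re, I_mul_re, ofReal_im, neg_zero, zero_add]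
  exact half_re_pos (s1 hz)

lemma s2 (ht : 0 < t) (hz : z ∈ ball (0 : ℂ) 1) : 1 + (t : ℂ) ^ 7 * vv t z ∈ slitPlane := by
  simpa [vv] using slit2 (u_re (t := t) hz) zero_le_one (pow_pos ht 7)

lemma x_re (ht : 0 < t) (hz : z ∈ ball (0 : ℂ) 1) : 0 < (I + w2 t z).re := by
  rw [add_re, I_re, zero_add]
  exact half_re_pos (s2 ht hz)

lemma hh_diff (ht : 0 < t) : DifferentiableOn ℂ (hh t) (ball 0 1) := by
  have h0 := et_diff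
  have h1 : DifferentiableOn ℂ (w1 t) (ball 0 1) :=
    DifferentiableOn.cpow_const (by unfold ze; fun_prop) fun _ hz => s1 hz
  have h2 : DifferentiableOn ℂ (w2 t) (ball 0 1) :=
    DifferentiableOn.cpow_const (by unfold vv; fun_prop) fun _ hz => s2 ht hz
  unfold hh
  fun_prop

lemma hh_inj (ht : 0 < t) : InjOn (hh t) (ball 0 1) := by
  intro z hz w hw h
  have h1 : w2 t z = w2 t w := add_left_cancel (sq_inj (x_re ht hz) (x_re ht hw) h)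
  have h2 : 1 + (t : ℂ) ^ 7 * vv t z = 1 + (t : ℂ) ^ 7 * vv t w := by
    rw [← half_sq (1 + (t : ℂ) ^ 7 * vv t z), ← half_sq (1 + (t : ℂ) ^ 7 * vv t w)]
    exact congrArg (· ^ 2) h1
  have ht' : (t : ℂ) ^ 7 ≠ 0 := pow_ne_zero _ (by exact_mod_cast ht.ne')
  have h3 : w1 t z = w1 t w := add_left_cancel (sq_inj (u_re hz) (u_re hw)
    (mul_left_cancel₀ ht' (add_left_cancel h2)))
  have h4 : (t : ℂ) ^ 4 + ze t z ^ 2 = (t : ℂ) ^ 4 + ze t w ^ 2 := by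
    rw [← half_sq ((t : ℂ) ^ 4 + ze t z ^ 2), ← half_sq ((t : ℂ) ^ 4 + ze t w ^ 2)]
    exact congrArg (· ^ 2) h3
  have h5 : et z = et w := add_right_cancel (sq_inj (ze_re hz) (ze_re hw) (add_left_cancel h4))
  rw [et, et, div_eq_div_iff (one_sub_ne' hz) (one_sub_ne' hw)] at h5
  linear_combination h5 / 2

/-! ### The expansion -/

/-- the approximate square root of the first step -/
noncomputable def d0 (t h : ℂ) : ℂ :=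
  t ^ 4 * h / 2 + I * (t ^ 6 / 2 - t ^ 10 / 4) * h ^ 2 - 5 / 8 * t ^ 8 * h ^ 3
    - 7 / 8 * I * t ^ 10 * h ^ 4

noncomputable def q1 (t h : ℂ) : ℂ :=
  21 / 8 * h ^ 4 + h ^ 2 + 3 / 2 * I * t ^ 2 * h ^ 5 + 7 / 8 * I * t ^ 2 * h ^ 3
    - 81 / 64 * t ^ 4 * h ^ 6 - 9 / 8 * t ^ 4 * h ^ 4 - 1 / 4 * t ^ 4 * h ^ 2
    - 35 / 32 * I * t ^ 6 * h ^ 7 - 5 / 16 * I * t ^ 6 * h ^ 5 + 49 / 64 * t ^ 8 * h ^ 8
    + 7 / 16 * t ^ 8 * h ^ 6 + 1 / 16 * t ^ 8 * h ^ 4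

/-- the main part -/
noncomputable def pp (t e h : ℂ) : ℂ :=
  (t ^ 4 - t ^ 12 / 4) + (I * t ^ 6 + (1 - I) * t ^ 13 / 4) * e ^ 1
    + (1 - (1 + I) * t ^ 11 / 4) * e ^ 2 + ((1 - I) * t ^ 13 / 4) * e ^ 3
    + (-(1 + I) * t ^ 7 / 8) * e ^ 4 + (I * t ^ 6) * h ^ 1 + (t ^ 12 / 2 - t ^ 8) * h ^ 2
    + (-5 / 4 * I * t ^ 10) * h ^ 3 + (7 / 4 * t ^ 12) * h ^ 4

/-- the part of `V` of order at least seven -/
noncomputable def r4 (t h r1 : ℂ) : ℂ :=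
  -t * h ^ 2 - 5 / 4 * I * t ^ 3 * h ^ 3 + t ^ 5 * (7 / 4 * h ^ 4 + h ^ 2 / 2 - 1 / 4)
    + 2 * I * t ^ 7 * r1

noncomputable def rho (t e h r1 r2 : ℂ) : ℂ :=
  2 * I * r1 + (1 + I) * r2 - (1 + I) / 8 * (t + 2 * I * t ^ 3 * (e + h) - t ^ 5 * (e + h) ^ 2
    + r4 t h r1 * (2 * (e ^ 2 + t ^ 4 + I * t ^ 6 * (e + h)) + t ^ 7 * r4 t h r1))

lemma alg1 {t e h y W j : ℂ} (heh : e * h = 1) (hy : y = e + I * (t ^ 6 / 2 - t ^ 2))
    (hW : W ^ 2 = t ^ 4 + y ^ 2) (hj : (W + (y + d0 t h)) * j = 1) :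
    (I * t ^ 2 + W) ^ 2 = e ^ 2 + t ^ 4 + I * t ^ 6 * (e + h) + t ^ 7 * r4 t h (q1 t h * j) := by
  have hI : I ^ 2 = -1 := I_sq
  have h1 : t ^ 4 + y ^ 2 - (y + d0 t h) ^ 2 = t ^ 12 * q1 t h := by
    subst hy
    unfold d0 q1
    clear * - heh hI
    grind
  have h2 : W = y + d0 t h + t ^ 12 * (q1 t h * j) := by
    linear_combination j * hW + j * h1 - (W - (y + d0 t h)) * hj
  have h3 : (I * t ^ 2 + W) ^ 2 = (I * t ^ 2 + y) ^ 2 + t ^ 4 + 2 * I * t ^ 2 * (W - y) := by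
    linear_combination hW
  rw [h3, h2, hy]
  unfold d0 r4
  clear * - heh hI
  grind

lemma alg2 {t e h r1 V W j : ℂ} (heh : e * h = 1)
    (hV : V = e ^ 2 + t ^ 4 + I * t ^ 6 * (e + h) + t ^ 7 * r4 t h r1)
    (hW : W ^ 2 = 1 + t ^ 7 * V) (hj : (W + (1 + t ^ 7 * V / 2 - t ^ 14 * V ^ 2 / 8)) * j = 1) :
    (I + W) ^ 2 = 2 * I + t ^ 7 * (1 + I) *
      (pp t e h + t ^ 14 * rho t e h r1 ((V ^ 3 / 8 - t ^ 7 * V ^ 4 / 64) * j)) := by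
  have hI : I ^ 2 = -1 := I_sq
  have h2 : W = 1 + t ^ 7 * V / 2 - t ^ 14 * V ^ 2 / 8
      + t ^ 21 * ((V ^ 3 / 8 - t ^ 7 * V ^ 4 / 64) * j) := by
    linear_combination j * hW - (W - (1 + t ^ 7 * V / 2 - t ^ 14 * V ^ 2 / 8)) * hj
  generalize (V ^ 3 / 8 - t ^ 7 * V ^ 4 / 64) * j = r2 at h2 ⊢
  have h3 : (I + W) ^ 2 = 2 * I + t ^ 7 * (1 + I) *
      (V - (1 + I) / 8 * t ^ 7 * V ^ 2 + (1 + I) * t ^ 14 * r2) := by
    have : (I + W) ^ 2 = t ^ 7 * V + 2 * I * W := by linear_combination hW + hI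
    rw [this, h2]
    clear * - heh hI
    grind
  have h4 : V ^ 2 = e ^ 4 + 2 * t ^ 4 * e ^ 2 + 2 * I * t ^ 6 * (e ^ 3 + e) + t ^ 7 *
      (t + 2 * I * t ^ 3 * (e + h) - t ^ 5 * (e + h) ^ 2
        + r4 t h r1 * (2 * (e ^ 2 + t ^ 4 + I * t ^ 6 * (e + h)) + t ^ 7 * r4 t h r1)) := by
    rw [hV]
    generalize r4 t h r1 = r
    clear * - heh hI
    grind
  rw [h3, h4, rho]
  generalize t + 2 * I * t ^ 3 * (e + h) - t ^ 5 * (e + h) ^ 2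
    + r4 t h r1 * (2 * (e ^ 2 + t ^ 4 + I * t ^ 6 * (e + h)) + t ^ 7 * r4 t h r1) = r3
  rw [hV]
  unfold pp r4
  clear * - heh hI
  grind

lemma et_zero : et 0 = 1 := by simp [et]

lemma approx : ∃ ρ : ℝ × ℂ → ℂ, ContinuousAt ρ (0, 0) ∧ ∀ᶠ p : ℝ × ℂ in 𝓝 (0, 0),
    hh p.1 p.2 = 2 * I + (p.1 : ℂ) ^ 7 * (1 + I) *
      (pp p.1 (et p.2) (et (-p.2)) + (p.1 : ℂ) ^ 14 * ρ p) := by
  have h0 : (0 : ℂ) ∈ ball (0 : ℂ) 1 := mem_ball_self one_pos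
  have ce : ContinuousAt (fun p : ℝ × ℂ => et p.2) (0, 0) :=
    ContinuousAt.comp (g := et) (an_of_diff et_diff).continuousAt continuousAt_snd
  have ch : ContinuousAt (fun p : ℝ × ℂ => et (-p.2)) (0, 0) :=
    ContinuousAt.comp (g := fun z => et (-z)) (an_of_diff th_diff).continuousAt continuousAt_snd
  have cz : ContinuousAt (fun p : ℝ × ℂ => ze p.1 p.2) (0, 0) := by unfold ze; fun_prop
  have c1 : ContinuousAt (fun p : ℝ × ℂ => w1 p.1 p.2) (0, 0) :=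
    ContinuousAt.cpow (by fun_prop) continuousAt_const (s1 h0)
  have cv : ContinuousAt (fun p : ℝ × ℂ => vv p.1 p.2) (0, 0) := by unfold vv; fun_prop
  have c2 : ContinuousAt (fun p : ℝ × ℂ => w2 p.1 p.2) (0, 0) :=
    ContinuousAt.cpow (by fun_prop) continuousAt_const (by simp)
  have ca : ContinuousAt (fun p : ℝ × ℂ => w1 p.1 p.2 + (ze p.1 p.2 + d0 p.1 (et (-p.2)))) (0, 0) := by
    unfold d0; fun_prop
  have cb : ContinuousAt (fun p : ℝ × ℂ => w2 p.1 p.2 + (1 + (p.1 : ℂ) ^ 7 * vv p.1 p.2 / 2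
      - (p.1 : ℂ) ^ 14 * vv p.1 p.2 ^ 2 / 8)) (0, 0) := by fun_prop
  have na : (fun p : ℝ × ℂ => w1 p.1 p.2 + (ze p.1 p.2 + d0 p.1 (et (-p.2)))) (0, 0) ≠ 0 := by
    simp [w1, ze, d0, et_zero]
  have nb : (fun p : ℝ × ℂ => w2 p.1 p.2 + (1 + (p.1 : ℂ) ^ 7 * vv p.1 p.2 / 2
      - (p.1 : ℂ) ^ 14 * vv p.1 p.2 ^ 2 / 8)) (0, 0) ≠ 0 := by
    simp [w2]
  have ia := ca.inv₀ na
  have ib := cb.inv₀ nb
  refine ⟨fun p => rho p.1 (et p.2) (et (-p.2))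
    (q1 p.1 (et (-p.2)) * (w1 p.1 p.2 + (ze p.1 p.2 + d0 p.1 (et (-p.2))))⁻¹)
    ((vv p.1 p.2 ^ 3 / 8 - (p.1 : ℂ) ^ 7 * vv p.1 p.2 ^ 4 / 64) *
      (w2 p.1 p.2 + (1 + (p.1 : ℂ) ^ 7 * vv p.1 p.2 / 2
        - (p.1 : ℂ) ^ 14 * vv p.1 p.2 ^ 2 / 8))⁻¹), ?_, ?_⟩
  · have k1 : Continuous fun x : ℂ × ℂ × ℂ × ℂ × ℂ =>
        rho x.1 x.2.1 x.2.2.1 x.2.2.2.1 x.2.2.2.2 := by
      unfold rho r4; fun_prop
    have k2 : ContinuousAt (fun p : ℝ × ℂ => q1 p.1 (et (-p.2))) (0, 0) := by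
      unfold q1; fun_prop
    have k0 : ContinuousAt (fun p : ℝ × ℂ => (p.1 : ℂ)) (0, 0) := by fun_prop
    have k3 : ContinuousAt (fun p : ℝ × ℂ =>
        vv p.1 p.2 ^ 3 / 8 - (p.1 : ℂ) ^ 7 * vv p.1 p.2 ^ 4 / 64) (0, 0) := by fun_prop
    exact k1.continuousAt.comp (k0.prodMk (ce.prodMk (ch.prodMk ((k2.mul ia).prodMk (k3.mul ib)))))
  · have hb : ∀ᶠ p : ℝ × ℂ in 𝓝 (0, 0), p.2 ∈ ball (0 : ℂ) 1 :=
      continuousAt_snd.eventually (p := fun z : ℂ => z ∈ ball (0 : ℂ) 1) (ball_mem_nhds 0 one_pos)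
    filter_upwards [hb, ca.eventually_ne na, cb.eventually_ne nb] with p hp ha hb
    exact alg2 (et_mul hp) (alg1 (et_mul hp) rfl (half_sq _) (mul_inv_cancel₀ ha)) (half_sq _)
      (mul_inv_cancel₀ hb)

end Pool.Agent.P.MP_c72435_an.Odd
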