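import Pool.Agent.P.MP_c72435_an.OddA

/-!
The odd coefficients of the family and the failure of the inequality.
-/

set_option autoImplicit false

namespace Pool.Agent.P.MP_c72435_an.Odd

open Complex Metric Set Filter Topology

lemma tc_const (c : ℂ) {m : ℕ} (hm : m ≠ 0) : tc (fun _ => c) m = 0 := by
  simp [tc, iteratedDeriv_const, hm]

lemma tc_neg (f : ℂ → ℂ) {m : ℕ} (hm : Odd m) : tc (fun z => f (-z)) m = -tc f m := by
  unfold tc
  rw [iteratedDeriv_comp_neg, hm.neg_one_pow, neg_zero, smul_eq_mul]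
  ring

lemma tc_shift {g : ℂ → ℂ} (hg : AnalyticAt ℂ g 0) (m : ℕ) :
    tc (fun z => z * g z) (m + 1) = tc g m := by
  rw [tc_mul (f := fun z => z) analyticAt_id hg, Finset.sum_eq_single 1]
  · simp [tc_id]
  · intro i _ hi
    simp [tc_id, hi]
  · simp

lemma et_an : AnalyticAt ℂ et 0 := an_of_diff et_diff

lemma e_rec (j m : ℕ) : tc (fun z => et z ^ (j + 1)) (m + 1)
    = tc (fun z => et z ^ (j + 1)) m + tc (fun z => et z ^ j) (m + 1)
      + tc (fun z => et z ^ j) m := by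
  have h := et_an
  have key : (fun z => et z ^ (j + 1)) =ᶠ[𝓝 0]
      fun z => z * et z ^ (j + 1) + et z ^ j + z * et z ^ j := by
    filter_upwards [ball_mem_nhds (0 : ℂ) one_pos] with z hz
    have : et z * (1 - z) = 1 + z := div_mul_cancel₀ _ (one_sub_ne' hz)
    linear_combination et z ^ j * this
  rw [tc_congr key, tc_add (by fun_prop) (by fun_prop), tc_add (by fun_prop) (by fun_prop),
    tc_shift (by fun_prop), tc_shift (by fun_prop)]

lemma e_zero (j : ℕ) : tc (fun z => et z ^ j) 0 = 1 := by simp [tc_zero, et_zero]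

lemma e0 (m : ℕ) : tc (fun z => et z ^ 0) (m + 1) = 0 := by
  simpa using tc_const 1 m.succ_ne_zero

lemma e1 (m : ℕ) : tc (fun z => et z ^ 1) (m + 1) = 2 := by
  induction m with
  | zero => rw [e_rec, e_zero, e_zero, e0]; norm_num
  | succ m ih => rw [e_rec, ih, e0, e0]; norm_num

lemma e2 (m : ℕ) : tc (fun z => et z ^ 2) (m + 1) = 4 * (m + 1 : ℕ) := by
  induction m with
  | zero => rw [e_rec, e_zero, e_zero, e1]; norm_num
  | succ m ih => rw [e_rec, ih, e1, e1]; push_cast; ring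

lemma e3 (m : ℕ) : tc (fun z => et z ^ 3) (m + 1) = 4 * (m + 1 : ℕ) ^ 2 + 2 := by
  induction m with
  | zero => rw [e_rec, e_zero, e_zero, e2]; norm_num
  | succ m ih => rw [e_rec, ih, e2, e2]; push_cast; ring

lemma e4 (m : ℕ) :
    tc (fun z => et z ^ 4) (m + 1) = (8 * (m + 1 : ℕ) ^ 3 + 16 * (m + 1 : ℕ)) / 3 := by
  induction m with
  | zero => rw [e_rec, e_zero, e_zero, e3]; norm_num
  | succ m ih => rw [e_rec, ih, e3, e3]; push_cast; ring

noncomputable def cA (t : ℝ) : ℝ := 4 - t ^ 11 + 4 * t ^ 8 - 34 / 3 * t ^ 12 - 2 / 3 * t ^ 7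

noncomputable def cB (t : ℝ) : ℝ := -(1 / 3 + 14 / 3 * t ^ 5)

noncomputable def cQ (m t : ℝ) : ℝ :=
  -t ^ 6 * (m ^ 2 + 1) - m * t ^ 4 + 5 / 4 * (4 * m ^ 2 + 2) * t ^ 3 - (m ^ 3 + 2 * m) / 3

lemma tc_pp (t : ℝ) {m : ℕ} (hm : Odd m) : tc (fun z => pp t (et z) (et (-z))) m
    = ((cA t * m + t ^ 7 * cB t * m ^ 3 + t ^ 13 * (m ^ 2 + 1) : ℝ) : ℂ)
      + ((t ^ 7 * cQ m t : ℝ) : ℂ) * I := by
  have h := et_an
  have h' : AnalyticAt ℂ (fun z => et (-z)) 0 := an_of_diff th_diff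
  have hn := fun j => tc_neg (fun z => et z ^ j) hm
  obtain ⟨k, rfl⟩ := Nat.exists_eq_add_one_of_ne_zero hm.pos.ne'
  unfold pp
  simp (disch := fun_prop) only [tc_add, tc_const_mul]
  rw [tc_const _ k.succ_ne_zero, hn, hn, hn, hn, e1, e2, e3, e4, cA, cB, cQ]
  push_cast
  ring

lemma pp_diff (t : ℝ) : DifferentiableOn ℂ (fun z => pp t (et z) (et (-z))) (ball 0 1) := by
  have h := et_diff
  have h' := th_diff
  unfold pp
  fun_prop

lemma coef {m : ℕ} (hm : m ≠ 0) : ∃ w : ℝ → ℂ, Tendsto w (𝓝[>] 0) (𝓝 0) ∧ ∀ t : ℝ, 0 < t →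
    tc (hh t) m = (t : ℂ) ^ 7 * (1 + I) *
      (tc (fun z => pp t (et z) (et (-z))) m + (t : ℂ) ^ 13 * w t) := by
  obtain ⟨ρ, hc, he⟩ := approx
  have hb : ∀ᶠ p : ℝ × ℂ in 𝓝 (0, 0), ‖ρ p‖ < ‖ρ (0, 0)‖ + 1 :=
    hc.norm.eventually (gt_mem_nhds (lt_add_one _))
  obtain ⟨ε, hε, h⟩ := Metric.eventually_nhds_iff.1 (he.and hb)
  set C := ‖ρ (0, 0)‖ + 1
  obtain ⟨r, hr, hr1, hr2⟩ : ∃ r : ℝ, 0 < r ∧ r < ε ∧ r < 1 :=
    ⟨min ε 1 / 2, by positivity, by linarith [min_le_left ε 1], by linarith [min_le_right ε 1]⟩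
  set R : ℝ → ℂ → ℂ := fun t z =>
    ((t : ℂ) ^ 7 * (1 + I))⁻¹ * (hh t z - 2 * I) - pp t (et z) (et (-z)) with hR
  have hne : ∀ t : ℝ, 0 < t → (t : ℂ) ^ 7 * (1 + I) ≠ 0 := fun t ht =>
    mul_ne_zero (pow_ne_zero _ (by exact_mod_cast ht.ne')) fun e => by
      simpa using congrArg re e
  have hd : ∀ t : ℝ, 0 < t → DifferentiableOn ℂ (R t) (ball 0 1) := fun t ht => by
    have h1 := hh_diff ht
    have h2 := pp_diff t
    simp only [hR]
    fun_prop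
  refine ⟨fun t => tc (R t) m / (t : ℂ) ^ 13, ?_, fun t ht => ?_⟩
  · refine squeeze_zero_norm' (a := fun t => C / r ^ m * t) ?_ ?_
    · filter_upwards [Ioo_mem_nhdsGT hε] with t ht
      have h1 := norm_iteratedDeriv_le_of_forall_mem_sphere_norm_le (C := C * t ^ 14) m hr
        ((hd t ht.1).diffContOnCl_ball (closedBall_subset_ball hr2)) fun z hz => by
          obtain ⟨e1, e2⟩ := @h (t, z) (by
            rw [Prod.dist_eq, mem_sphere.1 hz, Real.dist_eq, sub_zero, abs_of_pos ht.1]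
            exact max_lt ht.2 hr1)
          have e3 : R t z = (t : ℂ) ^ 14 * ρ (t, z) := by
            simp only [hR]
            rw [e1, add_sub_cancel_left, ← mul_assoc, inv_mul_cancel₀ (hne t ht.1)]
            ring
          rw [e3, norm_mul, norm_pow, norm_real, Real.norm_eq_abs, abs_of_pos ht.1, mul_comm]
          exact mul_le_mul_of_nonneg_right e2.le (pow_pos ht.1 _).le
      have h2 : (0 : ℝ) < m.factorial := by exact_mod_cast m.factorial_pos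
      rw [tc, norm_div, norm_div, norm_pow, norm_real, Real.norm_eq_abs, abs_of_pos ht.1,
        norm_natCast, div_le_iff₀ (pow_pos ht.1 _), div_le_iff₀ h2]
      refine h1.trans_eq ?_
      ring
    · have : Continuous fun t : ℝ => C / r ^ m * t := by fun_prop
      simpa using (this.tendsto 0).mono_left nhdsWithin_le_nhds
  · have h1 := an_of_diff (hd t ht)
    have h2 := an_of_diff (pp_diff t)
    have key : hh t = fun z => 2 * I + (t : ℂ) ^ 7 * (1 + I) *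
        (pp t (et z) (et (-z)) + R t z) := by
      funext z
      simp only [hR]
      rw [add_sub_cancel, ← mul_assoc, mul_inv_cancel₀ (hne t ht)]
      ring
    have ht' : (t : ℂ) ^ 13 ≠ 0 := pow_ne_zero _ (by exact_mod_cast ht.ne')
    rw [mul_div_cancel₀ _ ht']
    conv_lhs => rw [key]
    rw [tc_add (by fun_prop) (by fun_prop), tc_const _ hm, tc_const_mul, tc_add h2 h1, zero_add]

lemma norm_le_re {a : ℂ} (ha : 0 < a.re) : ‖a‖ ≤ a.re + a.im ^ 2 / (2 * a.re) := by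
  refine (abs_le_of_sq_le_sq' ?_ (by positivity)).2
  rw [← normSq_eq_norm_sq, normSq_apply]
  have : (a.re + a.im ^ 2 / (2 * a.re)) ^ 2
      = a.re * a.re + a.im * a.im + (a.im ^ 2 / (2 * a.re)) ^ 2 := by
    field_simp
    ring
  rw [this]
  exact le_add_of_nonneg_right (sq_nonneg _)

/-- the odd coefficients up to a common factor -/
lemma coef_odd {m : ℕ} (hm : Odd m) : ∃ (g : ℝ → ℂ) (u u' : ℝ → ℝ),
    (∀ t : ℝ, 0 < t → tc (hh t) m = (t : ℂ) ^ 7 * (1 + I) * g t) ∧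
    Tendsto u (𝓝[>] 0) (𝓝 (m ^ 2 + 1)) ∧ Tendsto u' (𝓝[>] 0) (𝓝 (m ^ 2 + 1)) ∧
    ∀ᶠ t in 𝓝[>] (0 : ℝ), 0 < cA t * m + t ^ 7 * cB t * m ^ 3 + t ^ 13 * u t ∧
      cA t * m + t ^ 7 * cB t * m ^ 3 + t ^ 13 * u t ≤ ‖g t‖ ∧
      ‖g t‖ ≤ cA t * m + t ^ 7 * cB t * m ^ 3 + t ^ 13 * u' t := by
  obtain ⟨w, hw, h⟩ := coef hm.pos.ne'
  set g : ℝ → ℂ := fun t => tc (fun z => pp t (et z) (et (-z))) m + (t : ℂ) ^ 13 * w t with hg
  have hre : ∀ t, (g t).re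
      = cA t * m + t ^ 7 * cB t * m ^ 3 + t ^ 13 * (m ^ 2 + 1 + (w t).re) := fun t => by
    simp only [hg, tc_pp t hm, ← ofReal_pow, add_re, ofReal_re, mul_I_re, ofReal_im, re_ofReal_mul]
    ring
  have him : ∀ t, (g t).im = t ^ 7 * (cQ m t + t ^ 6 * (w t).im) := fun t => by
    simp only [hg, tc_pp t hm, ← ofReal_pow, add_im, ofReal_re, mul_I_im, ofReal_im, im_ofReal_mul]
    ring
  have h0 : Tendsto (fun t : ℝ => t) (𝓝[>] 0) (𝓝 0) := tendsto_id.mono_left nhdsWithin_le_nhds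
  have hm0 : (0 : ℝ) < m := by exact_mod_cast hm.pos
  have k : Tendsto (fun t : ℝ => (t, w t)) (𝓝[>] 0) (𝓝 (0, 0)) := h0.prodMk_nhds hw
  have hx : Tendsto (fun t => (g t).re) (𝓝[>] 0) (𝓝 (4 * m)) := by
    have : Continuous fun p : ℝ × ℂ =>
        cA p.1 * m + p.1 ^ 7 * cB p.1 * m ^ 3 + p.1 ^ 13 * (m ^ 2 + 1 + p.2.re) := by
      unfold cA cB; fun_prop
    simpa [hre, cA, Function.comp_def] using (this.tendsto _).comp k
  have hu : Tendsto (fun t => (m : ℝ) ^ 2 + 1 + (w t).re) (𝓝[>] 0) (𝓝 ((m : ℝ) ^ 2 + 1)) := by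
    simpa using ((continuous_re.tendsto _).comp hw).const_add ((m : ℝ) ^ 2 + 1)
  have hy : Tendsto (fun t => t * (cQ m t + t ^ 6 * (w t).im) ^ 2) (𝓝[>] 0) (𝓝 0) := by
    have : Continuous fun p : ℝ × ℂ => p.1 * (cQ m p.1 + p.1 ^ 6 * p.2.im) ^ 2 := by
      unfold cQ; fun_prop
    simpa [Function.comp_def] using (this.tendsto _).comp k
  refine ⟨g, fun t => m ^ 2 + 1 + (w t).re, fun t => m ^ 2 + 1 + (w t).re
    + t * (cQ m t + t ^ 6 * (w t).im) ^ 2 / (2 * (g t).re), h, hu, ?_, ?_⟩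
  · simpa using hu.add (hy.div (hx.const_mul 2) (by positivity))
  · filter_upwards [hx.eventually (lt_mem_nhds (show (0 : ℝ) < 4 * m by positivity))] with t ht
    refine ⟨hre t ▸ ht, hre t ▸ re_le_norm _, (norm_le_re ht).trans_eq ?_⟩
    rw [him]
    nth_rewrite 1 [hre]
    ring

lemma sum1 (n : ℕ) : ∑ k ∈ Finset.range n, ((2 * k + 1 : ℕ) : ℝ) = n ^ 2 := by
  induction n with
  | zero => simp
  | succ n ih => rw [Finset.sum_range_succ, ih]; push_cast; ring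

lemma sum2 (n : ℕ) :
    ∑ k ∈ Finset.range n, (((2 * k + 1 : ℕ) : ℝ) ^ 2 + 1) = (4 * (n : ℝ) ^ 3 + 2 * n) / 3 := by
  induction n with
  | zero => simp
  | succ n ih => rw [Finset.sum_range_succ, ih]; push_cast; ring

lemma sum3 (n : ℕ) :
    ∑ k ∈ Finset.range n, ((2 * k + 1 : ℕ) : ℝ) ^ 3 = n ^ 2 * (2 * n ^ 2 - 1) := by
  induction n with
  | zero => simp
  | succ n ih => rw [Finset.sum_range_succ, ih]; push_cast; ring

theorem fail {n : ℕ} (hn : Odd n) (h3 : 3 ≤ n) : ∃ t : ℝ, 0 < t ∧ tc (hh t) 1 ≠ 0 ∧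
    ‖tc (hh t) 1‖ * ∑ k ∈ Finset.range n, ‖tc (hh t) (2 * k + 1)‖ < ‖tc (hh t) n‖ ^ 2 := by
  choose g u0 u hg _ hu hb using fun k : ℕ => coef_odd (odd_two_mul_add_one k)
  obtain ⟨G, U, U', hG, hU, -, hB⟩ := coef_odd hn
  have h0 : Tendsto (fun t : ℝ => t) (𝓝[>] 0) (𝓝 0) := tendsto_id.mono_left nhdsWithin_le_nhds
  have hS : Tendsto (fun t => ∑ k ∈ Finset.range n, u k t) (𝓝[>] 0)
      (𝓝 ((4 * n ^ 3 + 2 * n) / 3)) := sum2 n ▸ tendsto_finsetSum _ fun k _ => hu k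
  have h1 : Tendsto (u 0) (𝓝[>] 0) (𝓝 2) := by simpa [one_add_one_eq_two] using hu 0
  set F : ℝ × ℝ × ℝ × ℝ → ℝ := fun p => (cA p.1 + p.1 ^ 7 * cB p.1) * p.2.1
    + p.2.2.1 * (cA p.1 * n ^ 2 + p.1 ^ 7 * cB p.1 * (n ^ 2 * (2 * n ^ 2 - 1)) + p.1 ^ 13 * p.2.1)
    - 2 * (cA p.1 * n + p.1 ^ 7 * cB p.1 * n ^ 3) * p.2.2.2 - p.1 ^ 13 * p.2.2.2 ^ 2
    + p.1 * cB p.1 ^ 2 * (n ^ 2 * (2 * n ^ 2 - 1) - n ^ 6) with hF
  have cF : Continuous F := by simp only [hF]; unfold cA cB; fun_prop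
  have hlim := (cF.tendsto _).comp (h0.prodMk_nhds (hS.prodMk_nhds (h1.prodMk_nhds hU)))
  have hneg : F (0, (4 * n ^ 3 + 2 * n) / 3, 2, n ^ 2 + 1) < 0 := by
    have : F (0, (4 * n ^ 3 + 2 * n) / 3, 2, n ^ 2 + 1) = -(8 / 3 * (n * (n - 1) * (n - 2))) := by
      simp only [hF, cA]
      ring
    have h4 : (3 : ℝ) ≤ n := by exact_mod_cast h3
    rw [this, neg_lt_zero]
    exact mul_pos (by norm_num) (mul_pos (mul_pos (by linarith) (by linarith)) (by linarith))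
  have hall := (Finset.eventually_all (Finset.range n)).2 fun k _ => hb k
  obtain ⟨t, ⟨⟨⟨a1, a2⟩, a3⟩, a4⟩, ht⟩ :=
    (((((hlim.eventually (gt_mem_nhds hneg)).and hall).and hB).and (hb 0)).and
      self_mem_nhdsWithin).exists
  have ht : 0 < t := ht
  have hc : 0 < ‖(t : ℂ) ^ 7 * (1 + I)‖ := norm_pos_iff.2 (mul_ne_zero
    (pow_ne_zero _ (by exact_mod_cast ht.ne')) fun e => by simpa using congrArg re e)
  have e1 : ‖tc (hh t) 1‖ = ‖(t : ℂ) ^ 7 * (1 + I)‖ * ‖g 0 t‖ := by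
    rw [← norm_mul, ← hg 0 t ht]
    rfl
  refine ⟨t, ht, norm_pos_iff.1 (e1 ▸ mul_pos hc (a4.1.trans_le a4.2.1)), ?_⟩
  have b1 : ∑ k ∈ Finset.range n, ‖g k t‖ ≤ cA t * n ^ 2 + t ^ 7 * cB t * (n ^ 2 * (2 * n ^ 2 - 1))
      + t ^ 13 * ∑ k ∈ Finset.range n, u k t := by
    refine (Finset.sum_le_sum fun k hk => (a2 k hk).2.2).trans_eq ?_
    simp only [Finset.sum_add_distrib, ← Finset.mul_sum, sum1, sum3]
  have b2 := mul_le_mul a4.2.2 b1 (Finset.sum_nonneg fun _ _ => norm_nonneg _)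
    ((norm_nonneg _).trans a4.2.2)
  have b3 := pow_le_pow_left₀ a3.1.le a3.2.1 2
  have b4 := mul_neg_of_pos_of_neg (pow_pos ht 13) a1
  have b5 : ‖g 0 t‖ * ∑ k ∈ Finset.range n, ‖g k t‖ < ‖G t‖ ^ 2 := by
    refine b2.trans_lt (lt_of_lt_of_le ?_ b3)
    simp only [hF, Function.comp_apply] at b4
    push_cast
    linarith
  simp only [e1, hG t ht, hg _ t ht, norm_mul _ (g _ t), norm_mul _ (G t), ← Finset.mul_sum]
  nlinarith [mul_lt_mul_of_pos_left b5 (pow_pos hc 2)]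

end Pool.Agent.P.MP_c72435_an.Odd
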